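import Pool.Agent.K6.H15.HO.AllMetrics
import Pool.Agent.K6.H15.HO.ORE
import Pool.Agent.K6.H15.HO.FIX
import Pool.Agent.K6.H15.HO.FIN
import Pool.Agent.K6.H15.HO.LPA

/-!
# Finite orbits of horofunctions for all word metrics when the holonomy acts by signs

Pieces of the proof by helper38 (ORE), helper4 (FIX), helper37 (FIN), helper52 (LPA).
-/

set_option autoImplicit false

open Filter Topology

namespace Pool.Agent.Results.MP_3614fc_al.InvariantLengths

/-- The word length of `g` with respect to `S`: the least length of a list of elements of `S` with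
product `g`. -/
noncomputable def wordLength {G : Type} [Group G] (S : Finset G) (g : G) : ℕ :=
  sInf {m : ℕ | ∃ l : List G, l.length = m ∧ (∀ s ∈ l, s ∈ S) ∧ l.prod = g}

/-- `f` is a horofunction of the word metric `d(x, y) = |x⁻¹ y|` of `S`: there is a sequence `x n`
with `|(x n)⁻¹| → ∞` and `f y = lim (|(x n)⁻¹ y| - |(x n)⁻¹|)` for every `y`. -/
def IsHorofunction {G : Type} [Group G] (S : Finset G) (f : G → ℝ) : Prop :=
  ∃ x : ℕ → G, Tendsto (fun n : ℕ => (wordLength S (x n)⁻¹ : ℝ)) atTop atTop ∧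
    ∀ y : G, Tendsto (fun n : ℕ => (wordLength S ((x n)⁻¹ * y) : ℝ) - (wordLength S (x n)⁻¹ : ℝ))
      atTop (𝓝 (f y))

/-- The action of `g` on the functions on `G`: `(g · f)(y) = f(g⁻¹ y) - f(g⁻¹)`. -/
def act {G : Type} [Group G] (g : G) (f : G → ℝ) : G → ℝ := fun y => f (g⁻¹ * y) - f g⁻¹

/-- `S` is a finite symmetric generating set of `G`. -/
def Generates {G : Type} [Group G] (S : Finset G) : Prop :=
  (∀ s ∈ S, s⁻¹ ∈ S) ∧ Subgroup.closure (S : Set G) = ⊤

/-- Some horofunction of the word metric of `S` has a finite orbit. -/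
def HasFiniteOrbit {G : Type} [Group G] (S : Finset G) : Prop :=
  ∃ f : G → ℝ, IsHorofunction S f ∧ (Set.range fun g : G => act g f).Finite

/-- `a` and `b` are equal in the abelianization of `N` modulo torsion. -/
def SameClass {G : Type} [Group G] (N : Subgroup G) (a b : N) : Prop :=
  ∃ k : ℕ, 0 < k ∧ (a * b⁻¹) ^ k ∈ commutator N

/-- The conjugate `g c g⁻¹` of an element `c` of the normal subgroup `N`. -/
def conjBy {G : Type} [Group G] (N : Subgroup G) (hN : N.Normal) (g : G) (c : N) : N :=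
  ⟨g * c * g⁻¹, hN.conj_mem c c.2 g⟩

/-- Every element of `G` acts on the abelianization of `N` modulo torsion by `1` or by `-1`. -/
def ActsBySigns {G : Type} [Group G] (N : Subgroup G) (hN : N.Normal) : Prop :=
  ∀ g : G, (∀ c : N, SameClass N (conjBy N hN g c) c) ∨
    (∀ c : N, SameClass N (conjBy N hN g c) c⁻¹)

theorem result (G : Type) [Group G] (hi : Infinite G) (N : Subgroup G) (hN : N.Normal)
    (hf : N.FiniteIndex) (hn : Group.IsNilpotent N) :
    (ActsBySigns N hN → ∀ S : Finset G, Generates S → HasFiniteOrbit S) ∧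
    ∀ S : Finset G, Generates S →
      (∀ g : G, ∀ c : N, ∃ c' : N, wordLength S (c' : G) ≤ wordLength S (c : G) ∧
        SameClass N (conjBy N hN g c) c') → HasFiniteOrbit S := by
  have h : ∀ S : Finset G, Generates S →
      (∀ g : G, ∀ c : N, ∃ c' : N, wordLength S (c' : G) ≤ wordLength S (c : G) ∧
        SameClass N (conjBy N hN g c) c') → HasFiniteOrbit S := fun S hS hH =>
    Pool.Agent.K6.H15.HO.mainB Pool.Agent.K6.H15.HO.t_ORE Pool.Agent.K6.H15.HO.FIX.t_FIX
      Pool.Agent.K6.H15.HO.FIN.t_FIN Pool.Agent.K6.H15.HO.LPA.t_LPA G hi N hN hf hn S hS.1 hS.2 hH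
  refine ⟨fun ha S hS => h S hS fun g c => ?_, h⟩
  rcases ha g with h1 | h1
  · exact ⟨c, le_rfl, h1 c⟩
  · refine ⟨c⁻¹, le_of_eq ?_, h1 c⟩
    rw [InvMemClass.coe_inv]
    exact Pool.Agent.K6.H15.HO.wlen_inv S hS.1 hS.2 (c : G)

end Pool.Agent.Results.MP_3614fc_al.InvariantLengths
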