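import Pool.Agent.K6.H15.HO.Main
import Pool.Agent.K6.H15.HO.ORE
import Pool.Agent.K6.H15.HO.FIX
import Pool.Agent.K6.H15.HO.FIN
import Pool.Agent.K6.H15.HO.LPA
import Pool.Agent.K6.H15.HO.LOW
import Pool.Agent.K6.H15.HO.SET

/-!
# Every virtually nilpotent group has a Cayley metric with a finite orbit of horofunctions

Pieces of the proof by helper38 (ORE), helper4 (FIX), helper37 (FIN), helper52 (LPA), helper59
(LOW, SET).
-/

set_option autoImplicit false

open Filter Topology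

namespace Pool.Agent.Results.MP_3614fc_al.NilpotentCayleyMetrics

/-- The word length of `g` with respect to `S`: the least length of a list of elements of `S` with
product `g`. -/
noncomputable def wordLength {G : Type} [Group G] (S : Finset G) (g : G) : ℕ :=
  sInf {m : ℕ | ∃ l : List G, l.length = m ∧ (∀ s ∈ l, s ∈ S) ∧ l.prod = g}

/-- `f` is a horofunction of the word metric `d(x, y) = |x⁻¹ y|` of `S`: there is a sequence `x n`
with `|(x n)⁻¹| → ∞` and `f y = lim (|(x n)⁻¹ y| - |(x n)⁻¹|)` for every `y`. -/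
def IsHorofunction {G : Type} [Group G] (S : Finset G) (f : G → ℝ) : Prop :=
  ∃ x : ℕ → G, Tendsto (fun n : ℕ => (wordLength S (x n)⁻¹ : ℝ)) atTop atTop ∧
    ∀ y : G, Tendsto (fun n : ℕ => (wordLength S ((x n)⁻¹ * y) : ℝ) - (wordLength S (x n)⁻¹ : ℝ))
      atTop (𝓝 (f y))

/-- The action of `g` on the functions on `G`: `(g · f)(y) = f(g⁻¹ y) - f(g⁻¹)`. -/
def act {G : Type} [Group G] (g : G) (f : G → ℝ) : G → ℝ := fun y => f (g⁻¹ * y) - f g⁻¹

theorem result (G : Type) [Group G] (hG : Group.FG G) (hi : Infinite G)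
    (hn : ∃ H : Subgroup G, H.FiniteIndex ∧ Group.IsNilpotent ↥H) (S₀ : Finset G) :
    ∃ S : Finset G, S₀ ⊆ S ∧ (∀ s ∈ S, s⁻¹ ∈ S) ∧ Subgroup.closure (S : Set G) = ⊤ ∧
      ∃ f : G → ℝ, IsHorofunction S f ∧ (Set.range fun g : G => act g f).Finite :=
  Pool.Agent.K6.H15.HO.main Pool.Agent.K6.H15.HO.t_ORE Pool.Agent.K6.H15.HO.FIX.t_FIX
    Pool.Agent.K6.H15.HO.FIN.t_FIN Pool.Agent.K6.H15.HO.LPA.t_LPA
    Pool.Agent.K6.H15.HO.LOW.t_LOW Pool.Agent.K6.H15.HO.SET.t_SET G hG hi hn S₀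

end Pool.Agent.Results.MP_3614fc_al.NilpotentCayleyMetrics
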